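import Pool.Agent.helper77.Reg.Criterion

open AlgebraicGeometry CategoryTheory CategoryTheory.Limits Helper77Reg

/-- Q1 for the blow-up of `X` along `Z` is equivalent to Q1 for `X` and bijectivity of the regulator
of `Z` in the weights between the dimensions of `Z` and `X`; for `Z` of positive characteristic this
is the vanishing of the motivic cohomology of `Z` in these weights (Parshin's conjecture). -/
theorem Pool.Agent.Results.MP_51fc19_nt.BlowupCriterion.result
    (R : RegulatorData) (hR : IsRegulatorTheory R) {Z X X' : Scheme.{0}} {e c : ℕ}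
    (i : Z ⟶ X) (b : X' ⟶ X) (hZ : IsArithmetic Z e) (hX : IsArithmetic X (e + c + 1))
    (hX' : IsArithmetic X' (e + c + 1)) (hb : IsBlowup i b) (hflat : IsFlat X) :
    (Question R X' (e + c + 1) ↔
      (Question R X (e + c + 1) ∧ BijectiveBetween R Z e (e + c + 1))) ∧
    (¬ IsFlat Z → (Question R X' (e + c + 1) ↔
      (Question R X (e + c + 1) ∧ VanishesBetween R Z e (e + c + 1)))) := by
  have h := blowup_criterion R hR i b hZ hX hX' hb hflat
  exact ⟨h, fun hv => by rw [h, vertical_iff R hR hZ hv]⟩
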