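import Pool.Agent.helper77.Reg.Main

open AlgebraicGeometry CategoryTheory CategoryTheory.Limits Helper77Reg

/-- The strong form of Q1 (Q1 together with bijectivity of the regulator in all weights larger than
the dimension) passes from any class `S` of arithmetic schemes to the class generated by `S` under
projective bundles, blow-ups along members, and images of the same dimension. -/
theorem Pool.Agent.Results.MP_51fc19_nt.GeneratedClass.result
    (R : RegulatorData) (hR : IsRegulatorTheory R) (S : Scheme.{0} → ℕ → Prop)
    (hS : ∀ Z e, S Z e → StrongQuestion R Z e) (X : Scheme.{0}) (d : ℕ)
    (h : Generated S X d) : StrongQuestion R X d :=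
  strong_of_generated R hR S hS h
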