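import Pool.Agent.helper94.GR.Main

open AlgebraicGeometry CategoryTheory CategoryTheory.Limits Helper77Reg Helper69ZC Helper69GA
  Helper94GR

/-- Let `f : X' ⟶ X` be a generically finite morphism of arithmetic schemes of dimension `d`, `Γ` a
finite group acting faithfully on `X'`, `K` a subgroup acting over `X`, and let `Y j` be arithmetic
schemes birational to the quotients of `X'` by subgroups `H j` of `Γ`.
(1) Suppose that every irreducible real representation of `Γ` with a non-zero vector fixed by `K`
has a non-zero vector fixed by some `H j`. Then in weight `d` and degrees `2d-1` and `2d-2`, and in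
all degrees and weights if the `Y j` have morphisms to the quotients, the regulator of `X` is a
retract of a finite sum of regulators of the `Y j`; and the part of Q1 on the map `r_i` passes from
the `Y j` to `X` for `i ≤ 1`, and for all `i` if the `Y j` have morphisms to the quotients.
(2) The condition on the representations holds if `Γ / K` is abelian and all subgroups containing
`K` with cyclic quotient are among the `H j`, (3) and if the `H j` are at least two groups that form
a partition of a subgroup of `Γ` modulo `K`. -/
theorem Pool.Agent.Results.MP_51fc19_nt.GroupQuotients.result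
    (G : TraceData) (hG : IsGaloisTheory G) {X : Scheme.{0}} {d : ℕ}
    (hX : IsArithmetic X d) (hflat : IsFlat X) {Γ ι : Type} [Group Γ] [Finite Γ]
    (C : Cover X Γ ι) (hC : IsCover C d) :
    (Dominates C.H C.K →
      (∀ p q : ℤ, (HasMorphisms C d ∨ Low d p q) →
        IsRetractOfSum (G.reg X p q) fun j => G.reg (C.Y j) p q) ∧
      ∀ i : ℕ, (i ≤ 1 ∨ HasMorphisms C d) →
        (∀ j, QuestionAt G.toRegulatorData (C.Y j) d i) → QuestionAt G.toRegulatorData X d i) ∧
    (IsAbelianCase C.H C.K → Dominates C.H C.K) ∧
    (IsPartition C.H C.K → Dominates C.H C.K) := by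
  obtain ⟨hX', ⟨hξ, hfξ, hf⟩, hρ, hK, hY, hYf, hm⟩ := hC
  refine ⟨fun hdom => ⟨fun p q hpq => retract hG hX hX' C.f C.ξ hξ hfξ hf hρ C.K hK C.H hdom C.Y
      hY hm p q hpq, fun i hi hQ => questionAt_of_models hG hX hX' C.f C.ξ hξ hfξ hf hρ C.K hK C.H
      hdom C.Y hY hm hflat hYf i hi hQ⟩, fun h => dominates_of_abelian C.H C.K h.1 h.2, ?_⟩
  rintro ⟨hι, D, h1, h2⟩
  have hfin : Finite ι := Nat.finite_of_card_ne_zero (by omega)
  let _ := Fintype.ofFinite ι
  exact dominates_of_partition C.H C.K D (fun j => (h1 j).1) (fun j => (h1 j).2) h2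
    (by rwa [← Nat.card_eq_fintype_card])
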