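import Pool.Agent.helper69.ZC.Final2

open AlgebraicGeometry CategoryTheory CategoryTheory.Limits Helper77Reg Helper69ZC

/-- (1) If a multiple of the diagonal of `X` decomposes by spans through `σ : S ⟶ X`
(Bloch-Srinivas), the part of Q1 on the map `r_i` passes from `S` to `X`; for `i ≥ 2` this assumes
that the regulators of all arithmetic schemes of dimension smaller than `d` are bijective in the
degree and weight of `r_i`. (2) If there are morphisms `h : T ⟶ X` and `f : X ⟶ S` whose composite is
generically finite, `T` of the dimension of `S`, the part of Q1 on `r_i` passes from `X` to `S`.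
(3) By de Jong's theorem on alterations, the hypothesis of (1) holds if a multiple of the diagonal is
rationally equivalent to a cycle with components of the two types, and the one of (2) holds if `X`
maps onto `S`. -/
theorem Pool.Agent.Results.MP_51fc19_nt.ZeroCycles.result
    (G : GysinData) (hG : IsGysinTheory G) {X S : Scheme.{0}} {d e : ℕ}
    (hX : IsArithmetic X d) (hflat : IsFlat X) (hS : IsArithmetic S e) (i : ℕ) :
    (∀ (σ : S ⟶ X) (ξ : X), IsGenericPoint ξ Set.univ → DecomposesBySpans σ d ξ →
      (2 ≤ i → ∀ (V : Scheme.{0}) (n : ℕ), IsArithmetic V n → n < d →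
        (G.reg V (2 * d - 1 - i) d).Bijective) →
      QuestionAt G.toRegulatorData S e i → QuestionAt G.toRegulatorData X d i) ∧
    (IsFlat S → ∀ (T : Scheme.{0}) (h : T ⟶ X) (f : X ⟶ S) (η : T), IsArithmetic T e →
      IsGenericPoint η Set.univ → IsGenericPoint ((h ≫ f) η) Set.univ →
      (h ≫ f).residueDegree η ≠ 0 →
      QuestionAt G.toRegulatorData X d i → QuestionAt G.toRegulatorData S e i) ∧
    (Alterations →
      (∀ (σ : S ⟶ X) (ξ : X), IsGenericPoint ξ Set.univ → DecomposesThrough σ d ξ →
        DecomposesBySpans σ d ξ) ∧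
      ∀ (f : X ⟶ S) (ζ : S), IsGenericPoint ζ Set.univ → Surjective f →
        ∃ (T : Scheme.{0}) (h : T ⟶ X) (η : T), IsArithmetic T e ∧ IsGenericPoint η Set.univ ∧
          IsGenericPoint ((h ≫ f) η) Set.univ ∧ (h ≫ f).residueDegree η ≠ 0) :=
  ⟨fun σ ξ hξ h hi hQ => transfer_up_spans hG hX hflat hS σ ξ hξ h i hi hQ,
    fun hSf T h f η hT hη hζ h2 hQ =>
      transfer_down_section hG hX hS hSf hT h f η hη hζ h2 i hQ,
    fun hA => ⟨fun σ ξ hξ h => decomposesBySpans hA hX hS σ ξ hξ h,
      fun f ζ hζ hf => exists_multisection hA hX hS f hf ζ hζ⟩⟩
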